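import Mathlib

set_option autoImplicit false

namespace Pool.Agent.Results.MP_f89022_co.QuarterExponent

/-! ### The algebraic colouring of `F_p^4` with `p` colours -/

lemma det_third {R : Type*} [CommRing R] (A B : Matrix (Fin 3) (Fin 3) R) :
    (A + 3 • B).det - A.det - 3 * ((A + 2 • B).det - (A + B).det) = 6 * B.det := by
  have hs : ∀ (n : ℕ) (i j : Fin 3), (n • B) i j = (n : R) * B i j := by
    intro n i j
    rw [Matrix.smul_apply, nsmul_eq_mul]
  simp only [Matrix.det_fin_three, Matrix.add_apply, hs]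
  push_cast
  ring

/-- For a prime `p ≥ 5` there is a map `F_p^4 → F_p` without symmetric four term progressions. -/
lemma exists_G (p : ℕ) (hp : p.Prime) (h5 : 5 ≤ p) :
    ∃ G : (Fin 4 → ZMod p) → ZMod p, ∀ y d : Fin 4 → ZMod p,
      G y = G (y + 3 • d) → G (y + d) = G (y + 2 • d) → d = 0 := by
  classical
  have : Fact p.Prime := ⟨hp⟩
  let K := GaloisField p 3
  have hfin : Module.finrank (ZMod p) K = 3 := GaloisField.finrank p (by norm_num)
  let b : Module.Basis (Fin 3) (ZMod p) K := Module.finBasisOfFinrankEq (ZMod p) K hfin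
  let e : (Fin 3 → ZMod p) →ₗ[ZMod p] K := b.equivFun.symm.toLinearMap
  let A : (Fin 3 → ZMod p) → Matrix (Fin 3) (Fin 3) (ZMod p) :=
    fun v => Algebra.leftMulMatrix b (e v)
  have hAadd : ∀ v w, A (v + w) = A v + A w := by
    intro v w; simp only [A, map_add]
  have hAsmul : ∀ (n : ℕ) v, A (n • v) = n • A v := by
    intro n v; simp only [A, map_nsmul]
  have hA0 : ∀ v, (A v).det = 0 → v = 0 := by
    intro v hv
    have h1 : Algebra.norm (ZMod p) (e v) = 0 := by
      rw [Algebra.norm_eq_matrix_det b]; exact hv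
    have h2 : e v = 0 := (Algebra.norm_eq_zero_iff).mp h1
    have h3 : b.equivFun.symm v = 0 := h2
    exact (LinearEquiv.map_eq_zero_iff _).mp h3
  let π : (Fin 4 → ZMod p) → (Fin 3 → ZMod p) := fun y i => y (Fin.castSucc i)
  refine ⟨fun y => (A (π y)).det + y 3, ?_⟩
  intro y d h1 h2
  simp only at h1 h2
  have e3 : A (π (y + 3 • d)) = A (π y) + 3 • A (π d) := by
    rw [← hAsmul, ← hAadd]; rfl
  have e2 : A (π (y + 2 • d)) = A (π y) + 2 • A (π d) := by
    rw [← hAsmul, ← hAadd]; rfl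
  have e1 : A (π (y + d)) = A (π y) + A (π d) := by
    rw [← hAadd]; rfl
  rw [e3] at h1
  rw [e1, e2] at h2
  have key := det_third (A (π y)) (A (π d))
  have s3 : (y + 3 • d) 3 = y 3 + 3 * d 3 := by simp
  have s2 : (y + 2 • d) 3 = y 3 + 2 * d 3 := by simp
  have s1 : (y + d) 3 = y 3 + d 3 := rfl
  rw [s3] at h1
  rw [s1, s2] at h2
  have h6 : (6 : ZMod p) * (A (π d)).det = 0 := by
    rw [← key]
    linear_combination (-1) * h1 + 3 * h2
  have h6' : (6 : ZMod p) ≠ 0 := by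
    have : ((6 : ℕ) : ZMod p) ≠ 0 := by
      rw [Ne, ZMod.natCast_eq_zero_iff]
      intro hdvd
      have h23 : p ∣ 2 * 3 := by simpa using hdvd
      rcases (Nat.Prime.dvd_mul hp).mp h23 with h | h
      · have := Nat.le_of_dvd (by norm_num) h; omega
      · have := Nat.le_of_dvd (by norm_num) h; omega
    simpa using this
  have hdet : (A (π d)).det = 0 := by
    rcases mul_eq_zero.mp h6 with h | h
    · exact absurd h h6'
    · exact h
  have hπ : π d = 0 := hA0 _ hdet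
  have hAd : A (π d) = 0 := by
    rw [hπ]; simp only [A, map_zero]
  rw [hAd] at h1
  simp only [smul_zero, add_zero] at h1
  have h3 : (3 : ZMod p) * d 3 = 0 := by linear_combination (-1) * h1
  have h3' : (3 : ZMod p) ≠ 0 := by
    intro h
    apply h6'
    have : (6 : ZMod p) = 2 * 3 := by norm_num
    rw [this, h, mul_zero]
  have hd3 : d 3 = 0 := by
    rcases mul_eq_zero.mp h3 with h | h
    · exact absurd h h3'
    · exact h
  funext i
  have hi : ∀ j : Fin 3, d (Fin.castSucc j) = 0 := fun j => congrFun hπ j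
  fin_cases i
  · exact hi 0
  · exact hi 1
  · exact hi 2
  · exact hd3

/-! ### Digits -/

/-- the `i`-th digit of `n` in base `p` -/
def dig (p n i : ℕ) : ℕ := n / p ^ i % p

lemma dig_zero (p n : ℕ) : dig p n 0 = n % p := by simp [dig]

lemma dig_succ (p n i : ℕ) : dig p n (i + 1) = dig p (n / p) i := by
  simp only [dig]
  rw [Nat.div_div_eq_div_mul, pow_succ']

lemma eq_of_dig (p : ℕ) (hp : 0 < p) (m : ℕ) : ∀ x y : ℕ, x < p ^ m → y < p ^ m →
    (∀ i < m, dig p x i = dig p y i) → x = y := by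
  induction m with
  | zero =>
    intro x y hx hy _
    simp at hx hy
    omega
  | succ m ih =>
    intro x y hx hy h
    have h0 : x % p = y % p := by
      have := h 0 (Nat.succ_pos m)
      rwa [dig_zero, dig_zero] at this
    have h1 : x / p = y / p := by
      apply ih
      · rw [Nat.div_lt_iff_lt_mul hp, ← pow_succ]; exact hx
      · rw [Nat.div_lt_iff_lt_mul hp, ← pow_succ]; exact hy
      · intro i hi
        have := h (i + 1) (by omega)
        rwa [dig_succ, dig_succ] at this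
    rw [← Nat.div_add_mod x p, ← Nat.div_add_mod y p, h0, h1]

/-- the quarter of `[0,p)` containing the digit `a` -/
def quarter (p a : ℕ) : ℕ := 4 * a / p

lemma quarter_close (p a b : ℕ) (hp : 0 < p) (h : quarter p a = quarter p b) :
    4 * ((a : ℤ) - b) < p ∧ 4 * ((b : ℤ) - a) < p := by
  unfold quarter at h
  have h1 := Nat.div_add_mod (4 * a) p
  have h2 := Nat.div_add_mod (4 * b) p
  have h3 := Nat.mod_lt (4 * a) hp
  have h4 := Nat.mod_lt (4 * b) hp
  rw [h] at h1
  constructor <;> omega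

lemma small_zero (p : ℕ) (z w : ℤ) (h : z = p * w) (h1 : z < p) (h2 : -(p : ℤ) < z) : z = 0 := by
  have hp : (0 : ℤ) < p := by linarith
  have w1 : w < 1 := by
    by_contra hc
    push Not at hc
    nlinarith
  have w2 : -1 < w := by
    by_contra hc
    push Not at hc
    nlinarith
  have : w = 0 := by omega
  rw [h, this, mul_zero]

/-- one digit step -/
lemma step (p : ℕ) (hp : 0 < p) (x0 x1 x2 x3 : ℕ)
    (h1 : (x1 : ℤ) - x0 = x2 - x1) (h2 : (x3 : ℤ) - x2 = x2 - x1)
    (q1 : quarter p (x0 % p) = quarter p (x3 % p))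
    (q2 : quarter p (x1 % p) = quarter p (x2 % p)) :
    ∃ η : ℤ, ((x1 % p : ℕ) : ℤ) = (x0 % p : ℕ) + η ∧ ((x2 % p : ℕ) : ℤ) = (x0 % p : ℕ) + 2 * η ∧
      ((x3 % p : ℕ) : ℤ) = (x0 % p : ℕ) + 3 * η ∧
      ((x1 / p : ℕ) : ℤ) - (x0 / p : ℕ) = (x2 / p : ℕ) - (x1 / p : ℕ) ∧
      ((x3 / p : ℕ) : ℤ) - (x2 / p : ℕ) = (x2 / p : ℕ) - (x1 / p : ℕ) := by
  obtain ⟨c1, c2⟩ := quarter_close p _ _ hp q1
  obtain ⟨c3, c4⟩ := quarter_close p _ _ hp q2
  have d0 : (x0 : ℤ) = p * (x0 / p : ℕ) + (x0 % p : ℕ) := by exact_mod_cast (Nat.div_add_mod x0 p).symm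
  have d1 : (x1 : ℤ) = p * (x1 / p : ℕ) + (x1 % p : ℕ) := by exact_mod_cast (Nat.div_add_mod x1 p).symm
  have d2 : (x2 : ℤ) = p * (x2 / p : ℕ) + (x2 % p : ℕ) := by exact_mod_cast (Nat.div_add_mod x2 p).symm
  have d3 : (x3 : ℤ) = p * (x3 / p : ℕ) + (x3 % p : ℕ) := by exact_mod_cast (Nat.div_add_mod x3 p).symm
  have l0 : ((x0 % p : ℕ) : ℤ) < p := by exact_mod_cast Nat.mod_lt x0 hp
  have l1 : ((x1 % p : ℕ) : ℤ) < p := by exact_mod_cast Nat.mod_lt x1 hp
  have l2 : ((x2 % p : ℕ) : ℤ) < p := by exact_mod_cast Nat.mod_lt x2 hp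
  have l3 : ((x3 % p : ℕ) : ℤ) < p := by exact_mod_cast Nat.mod_lt x3 hp
  have n0 : (0 : ℤ) ≤ ((x0 % p : ℕ) : ℤ) := by positivity
  have n1 : (0 : ℤ) ≤ ((x1 % p : ℕ) : ℤ) := by positivity
  have n2 : (0 : ℤ) ≤ ((x2 % p : ℕ) : ℤ) := by positivity
  have n3 : (0 : ℤ) ≤ ((x3 % p : ℕ) : ℤ) := by positivity
  generalize ((x0 % p : ℕ) : ℤ) = a0 at *
  generalize ((x1 % p : ℕ) : ℤ) = a1 at *
  generalize ((x2 % p : ℕ) : ℤ) = a2 at *
  generalize ((x3 % p : ℕ) : ℤ) = a3 at *
  generalize ((x0 / p : ℕ) : ℤ) = y0 at *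
  generalize ((x1 / p : ℕ) : ℤ) = y1 at *
  generalize ((x2 / p : ℕ) : ℤ) = y2 at *
  generalize ((x3 / p : ℕ) : ℤ) = y3 at *
  have e1 : a3 - a0 - 3 * (a2 - a1) = 0 := by
    apply small_zero p _ (3 * (y2 - y1) - (y3 - y0))
    · have : (x3 : ℤ) - x0 = 3 * (x2 - x1) := by linarith
      rw [d0, d1, d2, d3] at this
      linarith
    · linarith
    · linarith
  have e2 : a1 - (a0 + (a2 - a1)) = 0 := by
    apply small_zero p _ ((y2 - y1) - (y1 - y0))
    · rw [d0, d1, d2] at h1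
      linarith
    · have : 0 ≤ a0 + (a2 - a1) := by
        rcases le_total 0 (a2 - a1) with h | h
        · linarith
        · linarith
      linarith
    · have : a0 + (a2 - a1) < p := by
        rcases le_total 0 (a2 - a1) with h | h
        · linarith
        · linarith
      linarith
  have hpz : (p : ℤ) ≠ 0 := by
    have : (0 : ℤ) < p := by exact_mod_cast hp
    exact this.ne'
  refine ⟨a2 - a1, by linarith, by linarith, by linarith, ?_, ?_⟩
  · apply mul_left_cancel₀ hpz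
    rw [d0, d1, d2] at h1
    linarith
  · apply mul_left_cancel₀ hpz
    rw [d1, d2, d3] at h2
    linarith

lemma digits_ap (p : ℕ) (hp : 0 < p) (m : ℕ) : ∀ x0 x1 x2 x3 : ℕ,
    ((x1 : ℤ) - x0 = x2 - x1) → ((x3 : ℤ) - x2 = x2 - x1) →
    (∀ i < m, quarter p (dig p x0 i) = quarter p (dig p x3 i)) →
    (∀ i < m, quarter p (dig p x1 i) = quarter p (dig p x2 i)) →
    ∀ i < m, ∃ η : ℤ, (dig p x1 i : ℤ) = dig p x0 i + η ∧ (dig p x2 i : ℤ) = dig p x0 i + 2 * η ∧
      (dig p x3 i : ℤ) = dig p x0 i + 3 * η := by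
  induction m with
  | zero => intro x0 x1 x2 x3 _ _ _ _ i hi; omega
  | succ m ih =>
    intro x0 x1 x2 x3 h1 h2 q1 q2 i hi
    have q1' := q1 0 (Nat.succ_pos m)
    have q2' := q2 0 (Nat.succ_pos m)
    rw [dig_zero, dig_zero] at q1' q2'
    obtain ⟨η, g1, g2, g3, g4, g5⟩ := step p hp x0 x1 x2 x3 h1 h2 q1' q2'
    rcases Nat.eq_zero_or_pos i with h0 | h0
    · subst h0
      refine ⟨η, ?_⟩
      rw [dig_zero, dig_zero, dig_zero, dig_zero]
      exact ⟨g1, g2, g3⟩
    · obtain ⟨j, rfl⟩ : ∃ j, i = j + 1 := ⟨i - 1, by omega⟩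
      rw [dig_succ, dig_succ, dig_succ, dig_succ]
      refine ih _ _ _ _ g4 g5 ?_ ?_ j (by omega)
      · intro k hk
        have := q1 (k + 1) (by omega)
        rwa [dig_succ, dig_succ] at this
      · intro k hk
        have := q2 (k + 1) (by omega)
        rwa [dig_succ, dig_succ] at this

/-! ### The colouring of an initial interval -/

lemma colouring (p : ℕ) (hp : p.Prime) (h5 : 5 ≤ p) (L : ℕ) :
    ∃ c : ℕ → Fin ((256 * p) ^ L), ∀ x d : ℕ, 0 < d → x + 3 * d < p ^ (4 * L) →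
      ¬ (c x = c (x + 3 * d) ∧ c (x + d) = c (x + 2 * d)) := by
  classical
  have : Fact p.Prime := ⟨hp⟩
  have hp0 : 0 < p := hp.pos
  obtain ⟨G, hG⟩ := exists_G p hp h5
  let C := (Fin L → (Fin 4 → Fin 4) × ZMod p)
  have hcard : Fintype.card C = (256 * p) ^ L := by
    simp [C, ZMod.card]
  let blk : ℕ → ℕ → Fin 4 → ZMod p := fun n j s => ((dig p n (4 * j + s.val) : ℕ) : ZMod p)
  have hq4 : ∀ n i, quarter p (dig p n i) < 4 := by
    intro n i
    unfold quarter
    rw [Nat.div_lt_iff_lt_mul hp0]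
    have : dig p n i < p := Nat.mod_lt _ hp0
    omega
  let f : ℕ → C := fun n j =>
    (fun s => ⟨quarter p (dig p n (4 * j.val + s.val)), hq4 _ _⟩, G (blk n j.val))
  let E : C ≃ Fin ((256 * p) ^ L) := Fintype.equivFinOfCardEq hcard
  refine ⟨fun n => E (f n), ?_⟩
  rintro x d hd hlt ⟨h1, h2⟩
  have h1' : f x = f (x + 3 * d) := E.injective h1
  have h2' : f (x + d) = f (x + 2 * d) := E.injective h2
  have hq : ∀ u v : ℕ, f u = f v → ∀ i < 4 * L, quarter p (dig p u i) = quarter p (dig p v i) := by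
    intro u v h i hi
    have hj : i / 4 < L := by omega
    have h3 := congrArg (fun z : C => (z ⟨i / 4, hj⟩).1 ⟨i % 4, Nat.mod_lt _ (by norm_num)⟩) h
    simp only [f, Fin.mk.injEq] at h3
    rwa [Nat.div_add_mod] at h3
  have hAP := digits_ap p hp0 (4 * L) x (x + d) (x + 2 * d) (x + 3 * d)
    (by push_cast; ring) (by push_cast; ring) (hq _ _ h1') (hq _ _ h2')
  have heq : x = x + d := by
    apply eq_of_dig p hp0 (4 * L) x (x + d) (by omega) (by omega)
    intro i hi
    choose! η hη using hAP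
    -- the block containing `i`
    have hj : i / 4 < L := by omega
    set j := i / 4 with hjdef
    have hidx : ∀ s : Fin 4, 4 * j + s.val < 4 * L := by
      intro s
      have := s.isLt
      omega
    let dv : Fin 4 → ZMod p := fun s => ((η (4 * j + s.val) : ℤ) : ZMod p)
    have b1 : blk (x + d) j = blk x j + dv := by
      funext s
      have := (hη _ (hidx s)).1
      have h := congrArg (Int.cast : ℤ → ZMod p) this
      push_cast at h
      simpa [blk, dv] using h
    have b2 : blk (x + 2 * d) j = blk x j + 2 • dv := by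
      funext s
      have := (hη _ (hidx s)).2.1
      have h := congrArg (Int.cast : ℤ → ZMod p) this
      push_cast at h
      simpa [blk, dv] using h
    have b3 : blk (x + 3 * d) j = blk x j + 3 • dv := by
      funext s
      have := (hη _ (hidx s)).2.2
      have h := congrArg (Int.cast : ℤ → ZMod p) this
      push_cast at h
      simpa [blk, dv] using h
    have g1 : G (blk x j) = G (blk x j + 3 • dv) := by
      rw [← b3]
      exact congrArg (fun z : C => (z ⟨j, hj⟩).2) h1'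
    have g2 : G (blk x j + dv) = G (blk x j + 2 • dv) := by
      rw [← b1, ← b2]
      exact congrArg (fun z : C => (z ⟨j, hj⟩).2) h2'
    have hdv := hG _ _ g1 g2
    have hs := congrFun hdv ⟨i % 4, Nat.mod_lt _ (by norm_num)⟩
    have hs' : ((η (4 * j + i % 4) : ℤ) : ZMod p) = 0 := hs
    have hji : 4 * j + i % 4 = i := by rw [hjdef]; exact Nat.div_add_mod i 4
    rw [hji, ZMod.intCast_zmod_eq_zero_iff_dvd] at hs'
    obtain ⟨w, hw⟩ := hs'
    have t1 := (hη i hi).1
    have u0 : (dig p x i : ℤ) < p := by exact_mod_cast (Nat.mod_lt _ hp0 : dig p x i < p)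
    have u1 : (dig p (x + d) i : ℤ) < p := by exact_mod_cast (Nat.mod_lt _ hp0 : dig p (x + d) i < p)
    have v0 : (0 : ℤ) ≤ dig p x i := by positivity
    have v1 : (0 : ℤ) ≤ dig p (x + d) i := by positivity
    have hη0 : η i = 0 := small_zero p _ w hw (by linarith) (by linarith)
    rw [hη0, add_zero] at t1
    exact_mod_cast t1.symm
  omega

/-- For every `ε > 0` and all large `N` the integers can be coloured with at most
`N ^ (1/4 + ε)` colours so that `[1,N]` contains no symmetrically coloured four term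
progression. -/
theorem result : ∀ ε : ℝ, 0 < ε → ∃ N₀ : ℕ, ∀ N : ℕ, N₀ ≤ N →
    ∃ k : ℕ, (k : ℝ) ≤ (N : ℝ) ^ (1 / 4 + ε) ∧
      ∃ c : ℕ → Fin k, ∀ x d : ℕ, 0 < d → 1 ≤ x → x + 3 * d ≤ N →
        ¬ (c x = c (x + 3 * d) ∧ c (x + d) = c (x + 2 * d)) := by
  intro ε hε
  -- choose the prime
  obtain ⟨M, hM⟩ := exists_nat_gt ((256 : ℝ) ^ (1 / (2 * ε)))
  obtain ⟨p, hpM, hp⟩ := Nat.exists_infinite_primes (M + 5)
  have h5 : 5 ≤ p := by omega
  have hp0 : (0 : ℝ) < p := by exact_mod_cast hp.pos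
  have hp1 : (1 : ℝ) < p := by exact_mod_cast hp.one_lt
  have hpε : (256 : ℝ) ≤ (p : ℝ) ^ (2 * ε) := by
    have h1 : (256 : ℝ) ^ (1 / (2 * ε)) ≤ p := by
      have : (M : ℝ) ≤ p := by exact_mod_cast (by omega : M ≤ p)
      linarith
    calc (256 : ℝ) = ((256 : ℝ) ^ (1 / (2 * ε))) ^ (2 * ε) := by
          rw [← Real.rpow_mul (by norm_num)]
          rw [one_div_mul_cancel (by positivity), Real.rpow_one]
      _ ≤ (p : ℝ) ^ (2 * ε) := Real.rpow_le_rpow (by positivity) h1 (by positivity)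
  set θ : ℝ := 1 / 4 + ε / 2 with hθ
  have hθ0 : 0 < θ := by positivity
  have hbase : (256 * p : ℝ) ≤ ((p : ℝ) ^ 4) ^ θ := by
    have : ((p : ℝ) ^ 4) ^ θ = (p : ℝ) * (p : ℝ) ^ (2 * ε) := by
      rw [← Real.rpow_natCast, ← Real.rpow_mul hp0.le]
      nth_rewrite 2 [← Real.rpow_one (p : ℝ)]
      rw [← Real.rpow_add hp0]
      congr 1
      rw [hθ]; push_cast; ring
    rw [this, mul_comm]
    exact mul_le_mul_of_nonneg_left hpε hp0.le
  -- choose the threshold
  obtain ⟨N₁, hN₁⟩ := exists_nat_gt ((((p : ℝ) ^ 4) ^ θ) ^ (2 / ε))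
  refine ⟨N₁ + 1, ?_⟩
  intro N hN
  have hNpos : 0 < N := by omega
  have hN0 : (0 : ℝ) < N := by exact_mod_cast hNpos
  have hNbig : ((p : ℝ) ^ 4) ^ θ ≤ (N : ℝ) ^ (ε / 2) := by
    have h1 : (((p : ℝ) ^ 4) ^ θ) ^ (2 / ε) ≤ N := by
      have : (N₁ : ℝ) ≤ N := by exact_mod_cast (by omega : N₁ ≤ N)
      linarith
    calc ((p : ℝ) ^ 4) ^ θ = ((((p : ℝ) ^ 4) ^ θ) ^ (2 / ε)) ^ (ε / 2) := by
          rw [← Real.rpow_mul (by positivity)]
          rw [show 2 / ε * (ε / 2) = 1 by field_simp, Real.rpow_one]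
      _ ≤ (N : ℝ) ^ (ε / 2) := Real.rpow_le_rpow (by positivity) h1 (by positivity)
  have hp4 : 1 < p ^ 4 := Nat.one_lt_pow (by norm_num) hp.one_lt
  set L := Nat.log (p ^ 4) N + 1 with hL
  have hL1 : N < p ^ (4 * L) := by
    rw [pow_mul, hL]; exact Nat.lt_pow_succ_log_self hp4 N
  have hL2 : (p ^ 4) ^ (L - 1) ≤ N := by
    rw [hL, Nat.add_sub_cancel]; exact Nat.pow_log_le_self _ hNpos.ne'
  obtain ⟨c, hc⟩ := colouring p hp h5 L
  refine ⟨(256 * p) ^ L, ?_, c, ?_⟩
  · have hL2' : ((p : ℝ) ^ 4) ^ (L - 1) ≤ N := by exact_mod_cast hL2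
    push_cast
    calc (256 * (p : ℝ)) ^ L ≤ (((p : ℝ) ^ 4) ^ θ) ^ L :=
          pow_le_pow_left₀ (by positivity) hbase L
      _ = ((p : ℝ) ^ 4) ^ θ * (((p : ℝ) ^ 4) ^ (L - 1)) ^ θ := by
          have hLL : L = (L - 1) + 1 := by omega
          have hpw : (((p : ℝ) ^ 4) ^ θ) ^ (L - 1) = (((p : ℝ) ^ 4) ^ (L - 1)) ^ θ := by
            rw [← Real.rpow_natCast (((p : ℝ) ^ 4) ^ θ), ← Real.rpow_mul (by positivity),
              mul_comm θ, Real.rpow_mul (by positivity), Real.rpow_natCast]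
          rw [← hpw]
          conv_lhs => rw [hLL]
          rw [pow_succ]
          ring
      _ ≤ (N : ℝ) ^ (ε / 2) * (N : ℝ) ^ θ := by
          apply mul_le_mul hNbig _ (by positivity) (by positivity)
          exact Real.rpow_le_rpow (by positivity) hL2' hθ0.le
      _ = (N : ℝ) ^ (1 / 4 + ε) := by
          rw [← Real.rpow_add hN0]
          congr 1
          rw [hθ]; ring
  · intro x d hd _ hxd
    exact hc x d hd (lt_of_le_of_lt hxd hL1)

end Pool.Agent.Results.MP_f89022_co.QuarterExponent
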